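import Pool.Agent.helper11.RPQ.SpecG
import Pool.Agent.helper62.QU.All

/-!
# Row `rpq:CKB`: smoothness and invariant seminorms of mollified functions
-/

set_option autoImplicit false

open scoped MatrixGroups ContDiff Topology UpperHalfPlane ComplexConjugate Nat
open UpperHalfPlane MeasureTheory Filter Set

namespace Pool.Agent.RPQ

open Pool.Agent.RS
open Pool.Agent.MS (BA BB st pf gk Dk amk)

/-- integrals with a parameter: smoothness, and the norm of the derivatives -/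
theorem CKB_par (n : ℕ) : ∀ {E' : Type} [NormedAddCommGroup E'] [NormedSpace ℝ E'] {Q : Type} [NormedAddCommGroup Q] [NormedSpace ℝ Q]
    {g : ℂ × Q → E'} {W : Set Q}, IsOpen W → ContDiffOn ℝ ∞ g (QU.CA1_U ×ˢ W) → ∀ {q : ℍ → Q}, Continuous q → (∀ w, q w ∈ W) →
    QU.CVS_P (fun ζ w => g (ζ, q w)) →
    ContDiffOn ℝ n (fun ζ => ∫ w : ℍ, g (ζ, q w)) QU.CA1_U ∧
      ∀ ζ ∈ QU.CA1_U, ‖iteratedFDeriv ℝ n (fun ζ => ∫ w : ℍ, g (ζ, q w)) ζ‖ ≤ ∫ w : ℍ, ‖iteratedFDeriv ℝ n (fun ζ => g (ζ, q w)) ζ‖ := by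
  induction n with
  | zero =>
    intro E' _ _ Q _ _ g W hW hg q hqc hq hP
    refine ⟨?_, ?_⟩
    · have := QU.CVS_cont hg.continuousOn hqc hq hP
      rw [Nat.cast_zero, contDiffOn_zero]
      exact this
    · intro ζ hζ
      rw [norm_iteratedFDeriv_zero]
      refine (norm_integral_le_integral_norm _).trans (le_of_eq ?_)
      refine integral_congr_ae (Eventually.of_forall fun w => ?_)
      show ‖g (ζ, q w)‖ = ‖iteratedFDeriv ℝ 0 (fun ζ => g (ζ, q w)) ζ‖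
      rw [norm_iteratedFDeriv_zero]
  | succ n ih =>
    intro E' _ _ Q _ _ g W hW hg q hqc hq hP
    have hD := QU.CVS_Dsm hW hg
    have hPD := QU.CVS_PD hW hg hq hP
    obtain ⟨c, b⟩ := ih hW hD hqc hq hPD
    have hd : ∀ ζ ∈ QU.CA1_U, HasFDerivAt (fun ζ => ∫ w : ℍ, g (ζ, q w)) (∫ w : ℍ, QU.CVS_D g (ζ, q w)) ζ :=
      fun ζ hζ => QU.CVS_int hW hg hqc hq hP hζ
    refine ⟨?_, ?_⟩
    · have e : ((n + 1 : ℕ) : WithTop ℕ∞) = (n : WithTop ℕ∞) + 1 := by push_cast; rfl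
      rw [e, contDiffOn_succ_iff_fderiv_of_isOpen QU.CA1_open]
      refine ⟨fun ζ hζ => (hd ζ hζ).differentiableAt.differentiableWithinAt, by simp, ?_⟩
      exact c.congr fun ζ hζ => (hd ζ hζ).fderiv
    · intro ζ hζ
      rw [← norm_iteratedFDeriv_fderiv]
      have e1 : fderiv ℝ (fun ζ => ∫ w : ℍ, g (ζ, q w)) =ᶠ[𝓝 ζ] fun ζ => ∫ w : ℍ, QU.CVS_D g (ζ, q w) := by
        filter_upwards [QU.CA1_open.mem_nhds hζ] with x hx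
        exact (hd x hx).fderiv
      rw [(e1.iteratedFDeriv ℝ n).eq_of_nhds]
      refine (b ζ hζ).trans (le_of_eq ?_)
      refine integral_congr_ae (Eventually.of_forall fun w => ?_)
      show ‖iteratedFDeriv ℝ n (fun ζ => QU.CVS_D g (ζ, q w)) ζ‖ = ‖iteratedFDeriv ℝ (n + 1) (fun ζ => g (ζ, q w)) ζ‖
      rw [← norm_iteratedFDeriv_fderiv]
      have e2 : fderiv ℝ (fun ζ => g (ζ, q w)) =ᶠ[𝓝 ζ] fun ζ => QU.CVS_D g (ζ, q w) := by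
        filter_upwards [QU.CA1_open.mem_nhds hζ] with x hx
        exact (QU.CVS_Dd hW hg hx (hq w)).fderiv
      rw [(e2.iteratedFDeriv ℝ n).eq_of_nhds]

theorem CKB_conv {κ0 : ℝ → ℝ} (hκ : QU.RK κ0) (f : ℍ → ℝ) (hf : Continuous f) : QU.CD ∞ (QU.conv κ0 f) ∧
    ∀ (n : ℕ) (ζ : ℂ), ζ ∈ QU.CA1_U → ‖iteratedFDeriv ℝ n (QU.onC (QU.conv κ0 f)) ζ‖ ≤
      ∫ w : ℍ, ‖iteratedFDeriv ℝ n (fun ζ : ℂ => κ0 (‖ζ - (w : ℂ)‖ ^ 2 / (2 * ζ.im * (w : ℂ).im)) • f w) ζ‖ := by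
  have hW : IsOpen (QU.CA1_U ×ˢ (univ : Set ℝ)) := QU.CA1_open.prod isOpen_univ
  have hqc : Continuous (fun w : ℍ => ((w : ℂ), f w)) := UpperHalfPlane.continuous_coe.prodMk hf
  have hq : ∀ w : ℍ, ((w : ℂ), f w) ∈ QU.CA1_U ×ˢ (univ : Set ℝ) := fun w => ⟨QU.CA1_mem w, mem_univ _⟩
  have g0 : ContDiffOn ℝ ∞ (QU.CVS_g (E := ℝ) κ0) (QU.CA1_U ×ˢ (QU.CA1_U ×ˢ (univ : Set ℝ))) := QU.CVS_gsm hκ.smooth
  have P0 : QU.CVS_P (fun ζ w => QU.CVS_g κ0 (ζ, ((w : ℂ), f w))) := QU.CVS_gP QU.A_TTT hκ f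
  have eq : ∀ ζ ∈ QU.CA1_U, QU.onC (QU.conv κ0 f) ζ = ∫ w : ℍ, QU.CVS_g κ0 (ζ, ((w : ℂ), f w)) := fun ζ hζ => QU.CVS_on κ0 f hζ
  refine ⟨?_, ?_⟩
  · show ContDiffOn ℝ ∞ (QU.onC (QU.conv κ0 f)) QU.CA1_U
    rw [contDiffOn_infty]
    intro n
    exact (CKB_par n hW g0 hqc hq P0).1.congr eq
  · intro n ζ hζ
    have e1 : QU.onC (QU.conv κ0 f) =ᶠ[𝓝 ζ] fun ζ => ∫ w : ℍ, QU.CVS_g κ0 (ζ, ((w : ℂ), f w)) := by
      filter_upwards [QU.CA1_open.mem_nhds hζ] with x hx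
      exact eq x hx
    rw [(e1.iteratedFDeriv ℝ n).eq_of_nhds]
    exact (CKB_par n hW g0 hqc hq P0).2 ζ hζ

theorem CKB_kap {κ : ℝ → ℝ} (hκ : ContDiff ℝ ∞ κ) (h0 : ∀ s, 1 / 64 ≤ s → κ s = 0) (k : ℕ) :
    ∃ C : ℝ, 0 ≤ C ∧ ∀ i ≤ k, ∀ t : ℝ, 0 ≤ t → ‖iteratedFDeriv ℝ i κ t‖ ≤ C := by
  have h : ∀ i : ℕ, ∃ C : ℝ, 0 ≤ C ∧ ∀ t : ℝ, 0 ≤ t → ‖iteratedFDeriv ℝ i κ t‖ ≤ C := by
    intro i
    have hc : Continuous (iteratedFDeriv ℝ i κ) := hκ.continuous_iteratedFDeriv (by exact_mod_cast le_top)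
    obtain ⟨C, hC⟩ := (isCompact_Icc (a := (0 : ℝ)) (b := 1)).exists_bound_of_continuousOn hc.continuousOn
    refine ⟨max C 0, le_max_right _ _, fun t ht => ?_⟩
    by_cases h1 : t ≤ 1
    · exact (hC t ⟨ht, h1⟩).trans (le_max_left _ _)
    · have h2 : 1 < t := not_le.mp h1
      have e : κ =ᶠ[𝓝 t] fun _ => (0 : ℝ) := by
        filter_upwards [lt_mem_nhds h2] with x hx
        exact h0 x (by linarith)
      rw [(e.iteratedFDeriv ℝ i).eq_of_nhds]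
      have : iteratedFDeriv ℝ i (fun _ : ℝ => (0 : ℝ)) t = 0 := by
        rw [iteratedFDeriv_fun_zero]; rfl
      rw [this, norm_zero]
      exact le_max_right _ _
  choose C hC0 hC using h
  refine ⟨∑ i ∈ Finset.range (k + 1), C i, Finset.sum_nonneg fun i _ => hC0 i, fun i hi t ht => ?_⟩
  exact (hC i t ht).trans (Finset.single_le_sum (f := C) (fun j _ => hC0 j) (Finset.mem_range.mpr (by omega)))

/-- the five functions which give the point pair invariant -/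
noncomputable def CKB_Ph (ζ : ℂ) : Fin 5 → ℝ := ![ζ.re ^ 2 / ζ.im, ζ.re / ζ.im, 1 / ζ.im, ζ.im, 1]

/-- the coefficients -/
noncomputable def CKB_L (w : ℍ) : (Fin 5 → ℝ) →L[ℝ] ℝ :=
  (1 / (2 * w.im)) • ContinuousLinearMap.proj 0 + (-(w.re / w.im)) • ContinuousLinearMap.proj 1 +
    ((w.re ^ 2 + w.im ^ 2) / (2 * w.im)) • ContinuousLinearMap.proj 2 + (1 / (2 * w.im)) • ContinuousLinearMap.proj 3 +
    (-1 : ℝ) • ContinuousLinearMap.proj 4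

theorem CKB_L_apply (w : ℍ) (x : Fin 5 → ℝ) : CKB_L w x = 1 / (2 * w.im) * x 0 + (-(w.re / w.im)) * x 1 +
    ((w.re ^ 2 + w.im ^ 2) / (2 * w.im)) * x 2 + 1 / (2 * w.im) * x 3 + (-1) * x 4 := rfl

theorem CKB_T (w : ℍ) {ζ : ℂ} (hζ : ζ ∈ QU.CA1_U) : ‖ζ - (w : ℂ)‖ ^ 2 / (2 * ζ.im * (w : ℂ).im) = CKB_L w (CKB_Ph ζ) := by
  rw [CKB_L_apply]
  have hy : ζ.im ≠ 0 := ne_of_gt hζ
  have hb : w.im ≠ 0 := ne_of_gt w.im_pos
  have e : ‖ζ - (w : ℂ)‖ ^ 2 = (ζ.re - w.re) ^ 2 + (ζ.im - w.im) ^ 2 := by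
    rw [Complex.sq_norm, Complex.normSq_apply]
    simp only [Complex.sub_re, Complex.sub_im, UpperHalfPlane.coe_re, UpperHalfPlane.coe_im]
    ring
  rw [e, UpperHalfPlane.coe_im]
  simp only [CKB_Ph, Matrix.cons_val]
  field_simp
  ring

theorem CKB_Ph_smooth : ContDiffOn ℝ ∞ CKB_Ph QU.CA1_U := by
  have hre : ContDiff ℝ ∞ (fun ζ : ℂ => ζ.re) := Complex.reCLM.contDiff
  have him : ContDiff ℝ ∞ (fun ζ : ℂ => ζ.im) := Complex.imCLM.contDiff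
  have hne : ∀ ζ ∈ QU.CA1_U, ζ.im ≠ 0 := fun ζ hζ => ne_of_gt hζ
  rw [contDiffOn_pi]
  intro i
  fin_cases i
  · exact (hre.pow 2).contDiffOn.div him.contDiffOn hne
  · exact hre.contDiffOn.div him.contDiffOn hne
  · exact contDiffOn_const.div him.contDiffOn hne
  · exact him.contDiffOn
  · exact contDiffOn_const

theorem CKB_L_norm (w : ℍ) (hw : QU.tt I w ≤ 1 / 64) : ‖CKB_L w‖ ≤ 8 := by
  have hb := w.im_pos
  set a := w.re with ha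
  set b := w.im with hbd
  have e : ‖((I : ℍ) : ℂ) - (w : ℂ)‖ ^ 2 = a ^ 2 + (1 - b) ^ 2 := by
    rw [Complex.sq_norm, Complex.normSq_apply]
    simp only [Complex.sub_re, Complex.sub_im, UpperHalfPlane.coe_re, UpperHalfPlane.coe_im, UpperHalfPlane.I_re, UpperHalfPlane.I_im]
    rw [← ha, ← hbd]
    ring
  have h1 : a ^ 2 + (1 - b) ^ 2 ≤ b / 32 := by
    unfold QU.tt at hw
    rw [e, UpperHalfPlane.I_im, ← hbd, div_le_iff₀ (by positivity)] at hw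
    linarith
  have b1 : 1 / 2 ≤ b := by nlinarith [sq_nonneg a]
  have b2 : b ≤ 2 := by nlinarith [sq_nonneg a]
  have a1 : |a| ≤ 1 := by
    rw [← sq_le_one_iff_abs_le_one]
    nlinarith [sq_nonneg (1 - b)]
  refine ContinuousLinearMap.opNorm_le_bound _ (by norm_num) fun x => ?_
  rw [CKB_L_apply, ← ha, ← hbd]
  have c0 : |1 / (2 * b)| ≤ 1 := by
    rw [abs_of_pos (by positivity), div_le_one (by positivity)]; linarith
  have c1 : |-(a / b)| ≤ 2 := by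
    rw [abs_neg, abs_div, abs_of_pos hb, div_le_iff₀ hb]; linarith
  have c2 : |(a ^ 2 + b ^ 2) / (2 * b)| ≤ 2 := by
    rw [abs_of_nonneg (by positivity), div_le_iff₀ (by positivity)]
    nlinarith [sq_nonneg (1 - b)]
  have x0 := norm_le_pi_norm x 0
  have x1 := norm_le_pi_norm x 1
  have x2 := norm_le_pi_norm x 2
  have x3 := norm_le_pi_norm x 3
  have x4 := norm_le_pi_norm x 4
  rw [Real.norm_eq_abs] at x0 x1 x2 x3 x4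
  have nx : 0 ≤ ‖x‖ := norm_nonneg x
  have d0 : |1 / (2 * b) * x 0| ≤ 1 * ‖x‖ := by rw [abs_mul]; exact mul_le_mul c0 x0 (abs_nonneg _) (by norm_num)
  have d1 : |-(a / b) * x 1| ≤ 2 * ‖x‖ := by rw [abs_mul]; exact mul_le_mul c1 x1 (abs_nonneg _) (by norm_num)
  have d2 : |(a ^ 2 + b ^ 2) / (2 * b) * x 2| ≤ 2 * ‖x‖ := by rw [abs_mul]; exact mul_le_mul c2 x2 (abs_nonneg _) (by norm_num)
  have d3 : |1 / (2 * b) * x 3| ≤ 1 * ‖x‖ := by rw [abs_mul]; exact mul_le_mul c0 x3 (abs_nonneg _) (by norm_num)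
  rw [Real.norm_eq_abs]
  rw [abs_le] at *
  constructor <;> linarith [d0.1, d0.2, d1.1, d1.2, d2.1, d2.2, d3.1, d3.2, x4.1, x4.2]

theorem CKB_tt (w : ℍ) : ‖((I : ℍ) : ℂ) - (w : ℂ)‖ ^ 2 / (2 * ((I : ℍ) : ℂ).im * (w : ℂ).im) = QU.tt I w := rfl

/-- the derivatives of the kernel at the base point -/
theorem CKB_pt {κ : ℝ → ℝ} (hκ : ContDiff ℝ ∞ κ) (h0 : ∀ s, 1 / 64 ≤ s → κ s = 0) (k : ℕ) : ∃ B : ℝ, 0 ≤ B ∧
    ∀ (ρ : ℝ) (w : ℍ), 0 < ρ → ρ ≤ 1 → QU.tt I w ≤ ρ ^ 2 / 64 →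
      ‖iteratedFDeriv ℝ k (κ ∘ fun ζ : ℂ => ((ρ ^ 2)⁻¹ • CKB_L w) (CKB_Ph ζ)) (I : ℂ)‖ ≤ B * ((ρ ^ 2)⁻¹) ^ k := by
  obtain ⟨Cκ, hC0, hC⟩ := CKB_kap hκ h0 k
  set M := ∑ i ∈ Finset.range (k + 1), ‖iteratedFDerivWithin ℝ i CKB_Ph QU.CA1_U (I : ℂ)‖ with hM
  have hM0 : 0 ≤ M := Finset.sum_nonneg fun i _ => norm_nonneg _
  have hMi : ∀ i ≤ k, ‖iteratedFDerivWithin ℝ i CKB_Ph QU.CA1_U (I : ℂ)‖ ≤ M := fun i hi =>
    Finset.single_le_sum (f := fun i => ‖iteratedFDerivWithin ℝ i CKB_Ph QU.CA1_U (I : ℂ)‖) (fun j _ => norm_nonneg _)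
      (Finset.mem_range.mpr (by omega))
  refine ⟨(k ! : ℝ) * Cκ * (8 * M + 1) ^ k, by positivity, ?_⟩
  intro ρ w hρ hρ1 hw
  have hIU : (I : ℂ) ∈ QU.CA1_U := QU.CA1_mem I
  have hr1 : 1 ≤ (ρ ^ 2)⁻¹ := by
    rw [one_le_inv₀ (by positivity)]
    nlinarith
  have hw64 : QU.tt I w ≤ 1 / 64 := by nlinarith
  have hL := CKB_L_norm w hw64
  have hLn : ‖(ρ ^ 2)⁻¹ • CKB_L w‖ ≤ (ρ ^ 2)⁻¹ * 8 := by
    rw [norm_smul, Real.norm_of_nonneg (by positivity)]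
    exact mul_le_mul_of_nonneg_left hL (by positivity)
  have hsm : ContDiffOn ℝ ∞ (fun ζ : ℂ => ((ρ ^ 2)⁻¹ • CKB_L w) (CKB_Ph ζ)) QU.CA1_U :=
    ContDiffOn.continuousLinearMap_comp _ CKB_Ph_smooth
  have huU : UniqueDiffOn ℝ QU.CA1_U := QU.CA1_open.uniqueDiffOn
  have key := norm_iteratedFDerivWithin_comp_le (𝕜 := ℝ) (n := k) (s := QU.CA1_U) (t := univ) (x := (I : ℂ)) (N := ∞)
    (hκ.contDiffOn (s := univ)) hsm (by exact_mod_cast le_top) uniqueDiffOn_univ huU (mapsTo_univ _ _) hIU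
    (C := Cκ) (D := (8 * M + 1) * (ρ ^ 2)⁻¹) ?_ ?_
  · rw [iteratedFDerivWithin_of_isOpen k QU.CA1_open hIU] at key
    refine key.trans (le_of_eq ?_)
    rw [mul_pow]
    ring
  · intro i hi
    rw [iteratedFDerivWithin_univ]
    refine hC i hi _ ?_
    show 0 ≤ (ρ ^ 2)⁻¹ * CKB_L w (CKB_Ph (I : ℂ))
    rw [← CKB_T w hIU, CKB_tt]
    have := QU.A_TTT.2.1 I w
    positivity
  · intro i hi1 hi
    have e : iteratedFDerivWithin ℝ i (fun ζ : ℂ => ((ρ ^ 2)⁻¹ • CKB_L w) (CKB_Ph ζ)) QU.CA1_U (I : ℂ) =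
        ((ρ ^ 2)⁻¹ • CKB_L w).compContinuousMultilinearMap (iteratedFDerivWithin ℝ i CKB_Ph QU.CA1_U (I : ℂ)) :=
      ContinuousLinearMap.iteratedFDerivWithin_comp_left ((ρ ^ 2)⁻¹ • CKB_L w) (CKB_Ph_smooth (I : ℂ) hIU) huU hIU (by exact_mod_cast le_top)
    rw [e]
    refine (ContinuousLinearMap.norm_compContinuousMultilinearMap_le _ _).trans ?_
    have h1 : ‖(ρ ^ 2)⁻¹ • CKB_L w‖ * ‖iteratedFDerivWithin ℝ i CKB_Ph QU.CA1_U (I : ℂ)‖ ≤ (ρ ^ 2)⁻¹ * 8 * M :=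
      mul_le_mul hLn (hMi i hi) (norm_nonneg _) (by positivity)
    have h2 : (ρ ^ 2)⁻¹ * 8 * M ≤ (8 * M + 1) * (ρ ^ 2)⁻¹ := by nlinarith
    have h3 : 1 ≤ (8 * M + 1) * (ρ ^ 2)⁻¹ := by nlinarith
    calc _ ≤ (8 * M + 1) * (ρ ^ 2)⁻¹ := h1.trans h2
      _ = ((8 * M + 1) * (ρ ^ 2)⁻¹) ^ 1 := (pow_one _).symm
      _ ≤ ((8 * M + 1) * (ρ ^ 2)⁻¹) ^ i := pow_le_pow_right₀ h3 hi1

theorem CKB_proof (hMOM : MOM_stmt) : CKB_stmt := by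
  intro κ hκ
  refine ⟨?_, ?_⟩
  · intro ρ V0 hρ hV
    exact (CKB_conv (hMOM.2 κ hκ ρ hρ).1 V0 hV).1
  intro k
  obtain ⟨B, hB0, hB⟩ := CKB_pt hκ.smooth hκ.supp k
  obtain ⟨c₀, hc₀, hMAS⟩ := QU.A_MAS
  refine ⟨c₀ * B + 1, by positivity, ?_⟩
  intro ρ m V0 hρ hρ1 hV hm g
  have hm0 : 0 ≤ m := (abs_nonneg _).trans (hm I)
  have hIU : (I : ℂ) ∈ QU.CA1_U := QU.CA1_mem I
  have e0 : (fun z : ℍ => QU.conv (mo κ ρ) V0 (g • z)) = QU.conv (mo κ ρ) (fun w => V0 (g • w)) := by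
    funext z
    exact ((QU.A_CVB ℝ).1 (mo κ ρ) V0 g z).symm
  rw [e0]
  have hcg : Continuous (fun w : ℍ => V0 (g • w)) := hV.comp (continuous_const_smul g)
  have hmg : ∀ w : ℍ, |V0 (g • w)| ≤ m := fun w => hm _
  refine ((CKB_conv (hMOM.2 κ hκ ρ hρ).1 _ hcg).2 k (I : ℂ) hIU).trans ?_
  -- the majorant
  set θ : ℝ → ℝ := fun t => Real.smoothTransition (2 - 32 * (t / ρ ^ 2)) with hθ
  have hρ2 : 0 < ρ ^ 2 := by positivity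
  have θs : ContDiff ℝ ∞ θ := by
    refine Real.smoothTransition.contDiff.comp ?_
    exact contDiff_const.sub (contDiff_const.mul (contDiff_id.div_const _))
  have θ0 : ∀ t, ρ ^ 2 / 16 ≤ t → θ t = 0 := by
    intro t ht
    refine Real.smoothTransition.zero_of_nonpos ?_
    have : 1 / 16 ≤ t / ρ ^ 2 := by
      rw [le_div_iff₀ hρ2]; linarith
    linarith
  have θ1 : ∀ t, t ≤ ρ ^ 2 / 64 → θ t = 1 := by
    intro t ht
    refine Real.smoothTransition.one_of_one_le ?_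
    have : t / ρ ^ 2 ≤ 1 / 64 := by
      rw [div_le_iff₀ hρ2]; linarith
    linarith
  have θn : ∀ t, 0 ≤ θ t := fun t => Real.smoothTransition.nonneg _
  have θle : ∀ t, θ t ≤ 1 := fun t => Real.smoothTransition.le_one _
  have θK : QU.RK θ := ⟨θs, ρ ^ 2 / 16, θ0⟩
  have θint : Integrable (fun w : ℍ => θ (QU.tt I w)) volume := by
    have hsym : (fun w : ℍ => θ (QU.tt I w)) = fun w : ℍ => θ (QU.tt w I) := by
      funext w; rw [QU.A_TTT.2.2.1]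
    rw [hsym]
    refine Continuous.integrable_of_hasCompactSupport ?_ (QU.A_LAK.2.2.1 θ I θK)
    exact θs.continuous.comp (QU.A_TTT.2.2.2.2.1.comp (continuous_id.prodMk continuous_const))
  have θmass : ∫ w : ℍ, θ (QU.tt I w) ≤ c₀ * ρ ^ 2 := by
    rw [hMAS θ (ρ ^ 2 / 16) θs (by positivity) θ0 I]
    refine mul_le_mul_of_nonneg_left ?_ hc₀.le
    have h1 := intervalIntegral.norm_integral_le_of_norm_le_const (a := (0 : ℝ)) (b := ρ ^ 2 / 16) (f := θ) (C := 1)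
      (fun t _ => by rw [Real.norm_of_nonneg (θn t)]; exact θle t)
    have h2 : |ρ ^ 2 / 16 - 0| = ρ ^ 2 / 16 := by rw [sub_zero, abs_of_pos (by positivity)]
    rw [h2] at h1
    have h3 := (le_abs_self _).trans h1
    linarith
  have hpt : ∀ w : ℍ, ‖iteratedFDeriv ℝ k (fun ζ : ℂ => mo κ ρ (‖ζ - (w : ℂ)‖ ^ 2 / (2 * ζ.im * (w : ℂ).im)) • V0 (g • w)) (I : ℂ)‖ ≤
      (m * (ρ ^ 2)⁻¹ * (B * ((ρ ^ 2)⁻¹) ^ k)) * θ (QU.tt I w) := by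
    intro w
    have e1 : (fun ζ : ℂ => mo κ ρ (‖ζ - (w : ℂ)‖ ^ 2 / (2 * ζ.im * (w : ℂ).im)) • V0 (g • w)) =ᶠ[𝓝 (I : ℂ)]
        ((ρ ^ 2)⁻¹ * V0 (g • w)) • (κ ∘ fun ζ : ℂ => ((ρ ^ 2)⁻¹ • CKB_L w) (CKB_Ph ζ)) := by
      filter_upwards [QU.CA1_open.mem_nhds hIU] with ζ hζ
      show mo κ ρ _ • V0 (g • w) = ((ρ ^ 2)⁻¹ * V0 (g • w)) • κ ((ρ ^ 2)⁻¹ * CKB_L w (CKB_Ph ζ))
      rw [CKB_T w hζ, smul_eq_mul, smul_eq_mul]
      unfold mo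
      rw [div_eq_inv_mul (CKB_L w (CKB_Ph ζ)) (ρ ^ 2)]
      ring
    by_cases hw : QU.tt I w ≤ ρ ^ 2 / 64
    · rw [(e1.iteratedFDeriv ℝ k).eq_of_nhds, θ1 _ hw, mul_one]
      have hcd : ContDiffAt ℝ k (κ ∘ fun ζ : ℂ => ((ρ ^ 2)⁻¹ • CKB_L w) (CKB_Ph ζ)) (I : ℂ) := by
        have hsm : ContDiffOn ℝ ∞ (fun ζ : ℂ => ((ρ ^ 2)⁻¹ • CKB_L w) (CKB_Ph ζ)) QU.CA1_U :=
          ContDiffOn.continuousLinearMap_comp _ CKB_Ph_smooth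
        have h2 : ContDiffOn ℝ ∞ (κ ∘ fun ζ : ℂ => ((ρ ^ 2)⁻¹ • CKB_L w) (CKB_Ph ζ)) QU.CA1_U :=
          hκ.smooth.comp_contDiffOn hsm
        exact (h2.contDiffAt (QU.CA1_open.mem_nhds hIU)).of_le (by exact_mod_cast le_top)
      rw [iteratedFDeriv_const_smul_apply hcd, norm_smul, Real.norm_eq_abs, abs_mul, abs_of_pos (by positivity : 0 < (ρ ^ 2)⁻¹)]
      have h3 : (ρ ^ 2)⁻¹ * |V0 (g • w)| ≤ m * (ρ ^ 2)⁻¹ := by
        rw [mul_comm]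
        exact mul_le_mul_of_nonneg_right (hmg w) (by positivity)
      exact mul_le_mul h3 (hB ρ w hρ hρ1 hw) (norm_nonneg _) (by positivity)
    · have hw' : ρ ^ 2 / 64 < QU.tt I w := not_le.mp hw
      have e2 : (fun ζ : ℂ => mo κ ρ (‖ζ - (w : ℂ)‖ ^ 2 / (2 * ζ.im * (w : ℂ).im)) • V0 (g • w)) =ᶠ[𝓝 (I : ℂ)] fun _ => (0 : ℝ) := by
        have hc : ContinuousAt (fun ζ : ℂ => ‖ζ - (w : ℂ)‖ ^ 2 / (2 * ζ.im * (w : ℂ).im)) (I : ℂ) := by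
          refine ContinuousAt.div ?_ ?_ ?_
          · exact ((continuous_id.sub continuous_const).norm.pow 2).continuousAt
          · exact ((continuous_const.mul Complex.continuous_im).mul continuous_const).continuousAt
          · have h1 : 0 < ((I : ℍ) : ℂ).im := QU.CA1_mem I
            have h2 : 0 < (w : ℂ).im := QU.CA1_mem w
            positivity
        have hlt : ρ ^ 2 / 64 < ‖((I : ℍ) : ℂ) - (w : ℂ)‖ ^ 2 / (2 * ((I : ℍ) : ℂ).im * (w : ℂ).im) := by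
          rw [CKB_tt]; exact hw'
        filter_upwards [hc.eventually (lt_mem_nhds hlt)] with ζ hζ
        show mo κ ρ _ • V0 (g • w) = 0
        unfold mo
        rw [hκ.supp, zero_div, zero_smul]
        rw [le_div_iff₀ hρ2]
        linarith
      rw [(e2.iteratedFDeriv ℝ k).eq_of_nhds]
      have : iteratedFDeriv ℝ k (fun _ : ℂ => (0 : ℝ)) (I : ℂ) = 0 := by
        rw [iteratedFDeriv_fun_zero]; rfl
      rw [this, norm_zero]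
      have := θn (QU.tt I w)
      positivity
  have hfin : ∫ w : ℍ, ‖iteratedFDeriv ℝ k (fun ζ : ℂ => mo κ ρ (‖ζ - (w : ℂ)‖ ^ 2 / (2 * ζ.im * (w : ℂ).im)) • V0 (g • w)) (I : ℂ)‖ ≤
      ∫ w : ℍ, (m * (ρ ^ 2)⁻¹ * (B * ((ρ ^ 2)⁻¹) ^ k)) * θ (QU.tt I w) :=
    integral_mono_of_nonneg (Eventually.of_forall fun w => norm_nonneg _) (θint.const_mul _) (Eventually.of_forall hpt)
  refine hfin.trans ?_
  rw [integral_const_mul]
  have hpow : ρ ^ (-(2 * (k : ℝ))) = ((ρ ^ 2)⁻¹) ^ k := by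
    have e5 : (2 * (k : ℝ)) = ((2 * k : ℕ) : ℝ) := by push_cast; ring
    rw [Real.rpow_neg hρ.le, e5, Real.rpow_natCast, pow_mul, inv_pow]
  rw [hpow]
  have hA : 0 ≤ m * (ρ ^ 2)⁻¹ * (B * ((ρ ^ 2)⁻¹) ^ k) := by positivity
  calc m * (ρ ^ 2)⁻¹ * (B * ((ρ ^ 2)⁻¹) ^ k) * ∫ w : ℍ, θ (QU.tt I w) ≤ m * (ρ ^ 2)⁻¹ * (B * ((ρ ^ 2)⁻¹) ^ k) * (c₀ * ρ ^ 2) :=
        mul_le_mul_of_nonneg_left θmass hA
    _ = c₀ * B * m * ((ρ ^ 2)⁻¹) ^ k := by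
        field_simp
    _ ≤ (c₀ * B + 1) * m * ((ρ ^ 2)⁻¹) ^ k := by
        have : 0 ≤ m * ((ρ ^ 2)⁻¹) ^ k := by positivity
        nlinarith

end Pool.Agent.RPQ
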